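import Pool.Agent.helper60.DA.SpecV

/-!
# Row dv:R2 (MP_fb2c2a_nt): the second order relation for `V`
-/

set_option autoImplicit false

namespace Pool.Agent.helper60.DA

open Polynomial Finset Pool.Agent.helper60.DK

/-- the polarisation of `Jop` -/
noncomputable def R2_B {R : Type*} [CommRing R] (S V : R[X]) : R[X] :=
  4 * X ^ 2 * (1 + X) ^ 2 * (1 + 4 * X) *
      (2 * (S * derivative (derivative V)) + 2 * (V * derivative (derivative S))
        - 2 * (derivative S * derivative V))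
    + 8 * X * (1 + X) * (1 + 8 * X + 10 * X ^ 2)
      * (S * derivative V + V * derivative S)
    + 2 * (12 * X + 51 * X ^ 2 + 36 * X ^ 3) * (S * V)

/-- the correction term -/
noncomputable def R2_E {R : Type*} [CommRing R] (S : R[X]) : R[X] :=
  X * (1 + X) * (X * (1 + 4 * X) * (S * derivative S) + (1 + 6 * X) * S ^ 2)

theorem R2_pol (S V : ℤ[X]) (c : ℤ) :
    Jop (S + C c * V) = Jop S + C c * R2_B S V + C c ^ 2 * Jop V := by
  unfold Jop R2_B
  simp only [derivative_add, derivative_C_mul]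
  ring

theorem R2_scale (y : ℤ[X]) (c : ℤ) : Jop (C c * y) = C c ^ 2 * Jop y := by
  unfold Jop
  simp only [derivative_C_mul]
  ring

theorem R2_map_B {R S : Type*} [CommRing R] [CommRing S] (f : R →+* S) (y z : R[X]) :
    (R2_B y z).map f = R2_B (y.map f) (z.map f) := by
  unfold R2_B
  simp only [Polynomial.map_add, Polynomial.map_sub, Polynomial.map_mul, Polynomial.map_pow,
    Polynomial.map_X, Polynomial.map_one, Polynomial.map_ofNat, derivative_map]

theorem R2_map_E {R S : Type*} [CommRing R] [CommRing S] (f : R →+* S) (y : R[X]) :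
    (R2_E y).map f = R2_E (y.map f) := by
  unfold R2_E
  simp only [Polynomial.map_add, Polynomial.map_mul, Polynomial.map_pow,
    Polynomial.map_X, Polynomial.map_one, Polynomial.map_ofNat, derivative_map]

theorem R2 (jst : JST_stmt) (js1 : JS1_stmt) (m1 : M1_stmt) (_jw : JW_stmt) : R2_stmt := by
  intro p hp h7 V hV
  have h5 : 5 ≤ p := by omega
  obtain ⟨Z1, hZ1⟩ := jst p h7
  obtain ⟨Z2, hZ2⟩ := js1 p h5
  have hp0 : (C (p : ℤ) : ℤ[X]) ≠ 0 := by
    rw [Ne, C_eq_zero]
    exact_mod_cast hp.out.ne_zero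
  have e1 : Jop (S1 p + C (p : ℤ) * V) = C ((16 : ℤ) ^ hh p) ^ 2 * (C ((p : ℤ) ^ 2) * Z1) := by
    have hV' : C ((16 : ℤ) ^ hh p) * St p = S1 p + C (p : ℤ) * V := hV
    rw [← hV', R2_scale, hZ1]
  rw [R2_pol, hZ2, C_pow, C_mul] at e1
  have c12 : (C (12 : ℤ) : ℤ[X]) = 12 := map_ofNat C 12
  rw [c12] at e1
  have hE : X * (1 + X) * (X * (1 + 4 * X) * (S1 p * derivative (S1 p))
      + (1 + 6 * X) * S1 p ^ 2) = R2_E (S1 p) := rfl
  rw [hE] at e1
  have e2 : C (p : ℤ) * (12 * R2_E (S1 p) + R2_B (S1 p) V) =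
      C (p : ℤ) * (C (p : ℤ) * (C ((16 : ℤ) ^ hh p) ^ 2 * Z1 - Z2 - Jop V)) := by
    linear_combination e1
  have e3 := mul_left_cancel₀ hp0 e2
  have e4 := congrArg (fun f : ℤ[X] => f.map (Int.castRingHom (ZMod p))) e3
  simp only [Polynomial.map_add, Polynomial.map_mul, Polynomial.map_C, Polynomial.map_ofNat,
    R2_map_B, R2_map_E, Int.coe_castRingHom, Int.cast_natCast, CharP.cast_eq_zero, map_zero,
    zero_mul] at e4
  have hS : (S1 p).map (Int.castRingHom (ZMod p)) = Wp p := m1 p h5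
  rw [hS] at e4
  have hW : (V.map (Int.castRingHom (ZMod p))) = red p V := rfl
  rw [hW] at e4
  unfold R2_B R2_E at e4
  linear_combination e4

end Pool.Agent.helper60.DA
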