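import Pool.Agent.helper60.DA.SpecJ

/-!
# Row dj:TE (MP_fb2c2a_nt): the sum at `u = 1/108` modulo `p^2`
-/

set_option autoImplicit false

namespace Pool.Agent.helper60.DA

open Polynomial Finset Pool.Agent.helper60.DK

/-- the value of `Cn m` -/
theorem TE_aeval {R : Type} [CommRing R] (m : ℕ) (x : R) :
    aeval x (Cn m) = ∑ k ∈ range (m + 1), (cc m k : R) * x ^ k := by
  unfold Cn
  rw [map_sum]
  refine Finset.sum_congr rfl fun k _ => ?_
  rw [map_mul, map_pow, aeval_X, aeval_C]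
  simp

theorem TE_sq {R : Type} [CommRing R] (m : ℕ) (v : R) :
    ∑ k ∈ range (m + 1), (cc m k : R) * (v * (1 + v)) ^ k = (aeval v (Dz m)) ^ 2 := by
  rw [← TE_aeval, ← map_pow, ← clausen, aeval_comp]
  congr 1
  simp

/-- changing the range of the sum -/
theorem TE_range {R : Type} [CommRing R] (m H : ℕ) (x : R)
    (h0 : ∀ k, H < k → (cc m k : R) = 0) :
    ∑ k ∈ range (H + 1), (cc m k : R) * x ^ k = ∑ k ∈ range (m + 1), (cc m k : R) * x ^ k := by
  have h2 : ∀ k, m < k → (cc m k : R) = 0 := by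
    intro k hk
    rw [cc_of_lt hk, Int.cast_zero]
  have h3 : ∀ n, (∀ k, n < k → (cc m k : R) = 0) → ∀ N, n ≤ N →
      ∑ k ∈ range (n + 1), (cc m k : R) * x ^ k = ∑ k ∈ range (N + 1), (cc m k : R) * x ^ k := by
    intro n hn N hN
    refine Finset.sum_subset ?_ ?_
    · intro k hk
      rw [mem_range] at hk ⊢
      omega
    · intro k _ hk
      rw [mem_range, not_lt] at hk
      rw [hn k (by omega), zero_mul]
  rw [h3 H h0 (max H m) (le_max_left _ _), h3 m h2 (max H m) (le_max_right _ _)]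

theorem TE (tj : TJ_stmt) (tc : TC_stmt) (dh : DH_stmt) : TE_stmt := by
  intro p _ hp3 hp6
  obtain ⟨X, Y, hXY, hJ⟩ := tj p hp3 hp6
  obtain ⟨tc1, tc2⟩ := tc p hp3 hp6
  refine ⟨X, Y, hXY, ?_⟩
  intro u hu
  set f := p / 6 with hf
  have hnn : nn p = 2 * f := by
    unfold nn
    omega
  -- the point `v = -1/2`
  set v : ZMod (p ^ 2) := -(54 * u) with hv
  have hv2 : 2 * v = -1 := by
    rw [hv]
    linear_combination -hu
  have hx : -27 * u = v * (1 + v) := by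
    have h4 : 4 * (-27 * u) = 4 * (v * (1 + v)) := by
      linear_combination (-1) * hu - (2 * v + 1) * hv2
    have h5 : (4 : ZMod (p ^ 2)) * (27 * u) = 1 := by
      linear_combination hu
    calc -27 * u = (4 * (27 * u)) * (-27 * u) := by rw [h5, one_mul]
      _ = (27 * u) * (4 * (-27 * u)) := by ring
      _ = (27 * u) * (4 * (v * (1 + v))) := by rw [h4]
      _ = (4 * (27 * u)) * (v * (1 + v)) := by ring
      _ = v * (1 + v) := by rw [h5, one_mul]
  have hS : 3 * ∑ k ∈ range (hh p + 1), (ak k : ZMod (p ^ 2)) * u ^ k =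
      2 * (aeval v (Dz (2 * f))) ^ 2 + (aeval v (Dz (2 * (2 * f)))) ^ 2 := by
    rw [← TE_sq, ← TE_sq, ← TE_range (2 * f) (hh p) _ ?_, ← TE_range (2 * (2 * f)) (hh p) _ ?_,
      Finset.mul_sum, Finset.mul_sum, ← Finset.sum_add_distrib]
    · refine Finset.sum_congr rfl fun k hk => ?_
      rw [mem_range] at hk
      have h1 := tc1 k (by omega)
      rw [hnn] at h1
      rw [← hx, mul_pow, ← mul_assoc, h1]
      ring
    · intro k hk
      have := (tc2 k hk).2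
      rwa [hnn] at this
    · intro k hk
      have := (tc2 k hk).1
      rwa [hnn] at this
  have d1 := dh (ZMod (p ^ 2)) v hv2 f
  have d2 := dh (ZMod (p ^ 2)) v hv2 (2 * f)
  have e1 : 16 ^ f * (aeval v (Dz (2 * f))) ^ 2 =
      (((2 * f).choose f : ℕ) : ZMod (p ^ 2)) ^ 2 := by
    have h1 : (16 : ZMod (p ^ 2)) ^ f = 4 ^ f * 4 ^ f := by
      rw [← mul_pow]; norm_num
    have h2 : ((-1 : ZMod (p ^ 2)) ^ f) * (-1) ^ f = 1 := by
      rw [← mul_pow]; norm_num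
    calc 16 ^ f * (aeval v (Dz (2 * f))) ^ 2 = (4 ^ f * aeval v (Dz (2 * f))) ^ 2 := by
          rw [h1]; ring
      _ = ((-1) ^ f * (((2 * f).choose f : ℕ) : ZMod (p ^ 2))) ^ 2 := by rw [d1]
      _ = (((-1 : ZMod (p ^ 2)) ^ f) * (-1) ^ f) * (((2 * f).choose f : ℕ) : ZMod (p ^ 2)) ^ 2 := by ring
      _ = _ := by rw [h2, one_mul]
  have e2 : 256 ^ f * (aeval v (Dz (2 * (2 * f)))) ^ 2 =
      (((4 * f).choose (2 * f) : ℕ) : ZMod (p ^ 2)) ^ 2 := by
    have h1 : (256 : ZMod (p ^ 2)) ^ f = 4 ^ (2 * f) * 4 ^ (2 * f) := by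
      rw [pow_mul, ← mul_pow]; norm_num
    have h2 : ((-1 : ZMod (p ^ 2)) ^ (2 * f)) = 1 := by
      rw [pow_mul]; norm_num
    have h3 : 4 * f = 2 * (2 * f) := by ring
    rw [h3]
    calc 256 ^ f * (aeval v (Dz (2 * (2 * f)))) ^ 2 =
          (4 ^ (2 * f) * aeval v (Dz (2 * (2 * f)))) ^ 2 := by
          rw [h1]; ring
      _ = ((-1) ^ (2 * f) * (((2 * (2 * f)).choose (2 * f) : ℕ) : ZMod (p ^ 2))) ^ 2 := by rw [d2]
      _ = _ := by rw [h2, one_mul]
  have h256 : (256 : ZMod (p ^ 2)) ^ f = 16 ^ f * 16 ^ f := by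
    rw [← mul_pow]; norm_num
  have hfin : (3 * 256 ^ f) * ∑ k ∈ range (hh p + 1), (ak k : ZMod (p ^ 2)) * u ^ k =
      (3 * 256 ^ f) * (4 * (X : ZMod (p ^ 2)) ^ 2 - 2 * (p : ZMod (p ^ 2))) := by
    rw [← hJ, ← e1, ← e2]
    have : (3 * 256 ^ f) * ∑ k ∈ range (hh p + 1), (ak k : ZMod (p ^ 2)) * u ^ k =
        256 ^ f * (3 * ∑ k ∈ range (hh p + 1), (ak k : ZMod (p ^ 2)) * u ^ k) := by ring
    rw [this, hS, h256]
    ring
  have u3 : IsUnit (3 : ZMod (p ^ 2)) :=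
    IsUnit.of_mul_eq_one (36 * u) (by linear_combination hu)
  have u4 : IsUnit (256 : ZMod (p ^ 2)) := by
    have h4 : IsUnit (4 : ZMod (p ^ 2)) :=
      IsUnit.of_mul_eq_one (27 * u) (by linear_combination hu)
    have h5 : (256 : ZMod (p ^ 2)) = 4 ^ 4 := by norm_num
    rw [h5]
    exact h4.pow 4
  exact (u3.mul (u4.pow f)).mul_left_cancel hfin

end Pool.Agent.helper60.DA
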