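import Pool.Agent.helper60.DA.SpecW

/-!
# Row dw:VT (MP_fb2c2a_nt): top coefficient of `V2`
-/

set_option autoImplicit false

namespace Pool.Agent.helper60.DA

open Polynomial Finset Pool.Agent.helper60.DK

theorem VT_rv_top (d : ℕ) (f : ℤ[X]) : (rv d f).coeff d = f.coeff 0 * 4 ^ d := by
  unfold rv
  rw [finset_sum_coeff, Finset.sum_eq_single 0]
  · rw [coeff_C_mul, Nat.sub_zero, coeff_X_pow, if_pos rfl, mul_one]
  · intro i hi h0
    rw [mem_range] at hi
    rw [coeff_C_mul, coeff_X_pow, if_neg (by omega), mul_zero]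
  · intro h
    exact absurd (mem_range.2 (by omega)) h

theorem VT_St_deg (p : ℕ) : (St p).natDegree ≤ 3 * hh p := by
  unfold St
  refine natDegree_sum_le_of_forall_le _ _ fun i hi => ?_
  rw [mem_range] at hi
  exact (natDegree_C_mul_X_pow_le _ _).trans (by omega)

theorem VT_St_zero (p : ℕ) [Fact p.Prime] (h5 : 5 ≤ p) : (St p).coeff 0 = 1 := by
  unfold St
  rw [finset_sum_coeff, Finset.sum_eq_single 0]
  · rw [coeff_C_mul, pow_zero, coeff_one_zero, mul_one, Sz_coeff_zero h5]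
  · intro i _ h0
    rw [coeff_C_mul, coeff_X_pow, if_neg (fun h => h0 h.symm), mul_zero]
  · intro h
    exact absurd (mem_range.2 (by omega)) h

theorem VT_deg1 (c : ℤ) : (1 + C c * X : ℤ[X]).natDegree ≤ 1 := by
  refine (natDegree_add_le _ _).trans (max_le ?_ ?_)
  · rw [natDegree_one]; omega
  · exact (natDegree_C_mul_le _ _).trans natDegree_X_le

theorem VT_pow_deg (c : ℤ) (h : ℕ) : ((1 + C c * X : ℤ[X]) ^ h).natDegree ≤ h := by
  refine (natDegree_pow_le).trans ?_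
  have := VT_deg1 c
  calc h * (1 + C c * X : ℤ[X]).natDegree ≤ h * 1 := Nat.mul_le_mul_left h this
    _ = h := mul_one h

theorem VT_pow_top (c : ℤ) (h : ℕ) : ((1 + C c * X : ℤ[X]) ^ h).coeff h = c ^ h := by
  have h1 := coeff_pow_of_natDegree_le (m := h) (VT_deg1 c)
  rw [mul_one] at h1
  rw [h1, coeff_add, coeff_C_mul, coeff_X_one, mul_one, coeff_one]
  norm_num

theorem VT_S1 (p : ℕ) : (S1 p).coeff (3 * hh p) = 16 ^ hh p := by
  have e1 : (1 + X : ℤ[X]) = 1 + C 1 * X := by rw [C_1, one_mul]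
  unfold S1 Hh
  rw [finset_sum_coeff, Finset.sum_eq_single 0]
  · rw [coeff_C_mul, mul_zero, pow_zero, one_mul, Nat.sub_zero, e1, VT_pow_top]
    simp [ak]
  · intro k hk h0
    rw [mem_range] at hk
    rw [coeff_C_mul, coeff_eq_zero_of_natDegree_lt, mul_zero]
    refine lt_of_le_of_lt natDegree_mul_le ?_
    rw [natDegree_X_pow, e1]
    have := VT_pow_deg 1 (3 * (hh p - k))
    omega
  · intro h
    exact absurd (mem_range.2 (by omega)) h

theorem VT (_vex : VEX_stmt) (rvh : RV_stmt) : VT_stmt := by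
  intro p hp h5 V V2 hV hV2
  obtain ⟨-, -, -, -, -, hrd⟩ := rvh ℤ
  set h := hh p with hh'
  have hN : (Nz p).natDegree ≤ 3 * h := hrd _ _
  have e1 : (1 + X : ℤ[X]) = 1 + C 1 * X := by rw [C_1, one_mul]
  have e4 : (1 + 4 * X : ℤ[X]) = 1 + C 4 * X := by rw [show (C (4 : ℤ) : ℤ[X]) = 4 from map_ofNat C 4]
  have h4 : 4 * h = h + 3 * h := by ring
  -- coefficient in `IsV2`
  have a1 : (4 : ℤ) ^ (3 * h) = 4 ^ h * (St p).coeff (3 * h) + p * V2.coeff (4 * h) := by
    have hV2' : (1 + X) ^ h * Nz p = (1 + 4 * X) ^ h * St p + C (p : ℤ) * V2 := hV2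
    have c1 := congrArg (fun f : ℤ[X] => f.coeff (h + 3 * h)) hV2'
    simp only [coeff_add, coeff_C_mul] at c1
    rw [e1, e4, coeff_mul_add_eq_of_natDegree_le (VT_pow_deg 1 h) hN,
      coeff_mul_add_eq_of_natDegree_le (VT_pow_deg 4 h) (VT_St_deg p), VT_pow_top, VT_pow_top] at c1
    have c2 : (Nz p).coeff (3 * h) = 4 ^ (3 * h) := by
      unfold Nz
      rw [VT_rv_top, VT_St_zero p h5, one_mul]
    rw [c2, one_pow, one_mul] at c1
    rw [h4]
    exact c1
  have a2 : (16 : ℤ) ^ h * (St p).coeff (3 * h) = 16 ^ h + p * V.coeff (3 * h) := by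
    have hV' : C ((16 : ℤ) ^ h) * St p = S1 p + C (p : ℤ) * V := hV
    have c1 := congrArg (fun f : ℤ[X] => f.coeff (3 * h)) hV'
    simp only [coeff_add, coeff_C_mul] at c1
    rw [VT_S1] at c1
    exact c1
  -- `4^h = 2^(p-1)`
  have hp2 : ¬ (p : ℤ) ∣ 2 := by
    intro hd
    have := Int.le_of_dvd (by norm_num) hd
    omega
  have hfq := fq_spec (p := p) hp2
  have h2h : p - 1 = 2 * h := by
    have := two_hh (p := p) h5
    omega
  have b4 : (4 : ℤ) ^ h = 1 + p * fq p 2 := by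
    rw [hfq, h2h, pow_mul]
    norm_num
  have b16 : (16 : ℤ) ^ h = (1 + p * fq p 2) ^ 2 := by
    rw [← b4, ← pow_mul, mul_comm h 2, pow_mul]
    norm_num
  have b64 : (4 : ℤ) ^ (3 * h) = (1 + p * fq p 2) ^ 3 := by
    rw [← b4, ← pow_mul, mul_comm h 3]
  rw [b64, b4] at a1
  rw [b16] at a2
  have hp0 : (p : ℤ) ≠ 0 := by exact_mod_cast hp.out.ne_zero
  have key : (1 + (p : ℤ) * fq p 2) * V2.coeff (4 * h) + V.coeff (3 * h) =
      (1 + p * fq p 2) ^ 2 * (2 * fq p 2 + p * fq p 2 ^ 2) := by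
    apply mul_left_cancel₀ hp0
    linear_combination (-(1 + (p : ℤ) * fq p 2)) * a1 - a2
  have hc := congrArg (fun z : ℤ => (z : ZMod p)) key
  simp only [Int.cast_add, Int.cast_mul, Int.cast_one, Int.cast_pow, Int.cast_natCast,
    CharP.cast_eq_zero, zero_mul, add_zero, one_mul, one_pow, Int.cast_ofNat] at hc
  have r1 : (red p V2).coeff (4 * h) = ((V2.coeff (4 * h) : ℤ) : ZMod p) := by
    rw [red, coeff_map]; rfl
  have r2 : (red p V).coeff (3 * h) = ((V.coeff (3 * h) : ℤ) : ZMod p) := by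
    rw [red, coeff_map]; rfl
  rw [r1, r2]
  unfold Q2
  linear_combination hc

end Pool.Agent.helper60.DA
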